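import Mathlib

/-!
# Up-color domination: definitions
-/

set_option autoImplicit false

namespace Pool.Agent.X65.UC

variable {V : Type}

/-- `c` is a coloring of `G`: adjacent vertices have different colors. -/
def IsCol (G : SimpleGraph V) (c : V → ℕ) : Prop := ∀ u v, G.Adj u v → c u ≠ c v

/-- `D` is up-color dominating for `(G, c)`: no vertex of `D` has color `0`, and every vertex
outside `D` has a neighbour in `D` of larger color. -/
def UpDom (G : SimpleGraph V) (c : V → ℕ) (D : Finset V) : Prop :=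
  (∀ d ∈ D, c d ≠ 0) ∧ ∀ v, v ∉ D → ∃ d ∈ D, G.Adj v d ∧ c v < c d

/-- `ω_uc(G, c)`: the minimum weight of an up-color dominating set for `(G, c)` (infinite when
there is none) -/
noncomputable def omegaUC (G : SimpleGraph V) (c : V → ℕ) : ℕ∞ :=
  ⨅ D : {D : Finset V // UpDom G c D}, ((∑ d ∈ D.1, c d : ℕ) : ℕ∞)

/-- `Ω_uc(G)`: the minimum of `ω_uc(G, c)` over all colorings -/
noncomputable def OmegaUC (G : SimpleGraph V) : ℕ∞ :=
  ⨅ c : {c : V → ℕ // IsCol G c}, omegaUC G c.1

theorem le_iff {G : SimpleGraph V} {k : ℕ} :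
    OmegaUC G ≤ k ↔ ∃ (c : V → ℕ) (D : Finset V), IsCol G c ∧ UpDom G c D ∧ ∑ d ∈ D, c d ≤ k := by
  constructor
  · intro h
    by_contra hcon
    push Not at hcon
    have h1 : ((k + 1 : ℕ) : ℕ∞) ≤ OmegaUC G := by
      refine le_iInf fun c => le_iInf fun D => ?_
      have := hcon c.1 D.1 c.2 D.2
      exact_mod_cast this
    have h2 := h1.trans h
    have h3 : k + 1 ≤ k := by exact_mod_cast h2
    omega
  · rintro ⟨c, D, h1, h2, h3⟩
    refine (iInf_le _ (⟨c, h1⟩ : {c : V → ℕ // IsCol G c})).trans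
      ((iInf_le _ (⟨D, h2⟩ : {D : Finset V // UpDom G c D})).trans ?_)
    exact_mod_cast h3

end Pool.Agent.X65.UC
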