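import Pool.Agent.X65.UC.Tree
import Pool.Agent.X65.UC.Defs
import Pool.Agent.X65.MS.TPoly

/-!
# Up-color domination in trees: the algorithm runs in polynomial time
-/

set_option autoImplicit false

namespace Pool.Agent.X65.UC

open Pool.Agent.NPC Pool.Agent.NPC.R671 Pool.Agent.H671R2.Ord Pool.Agent.X249
open Pool.Agent.X65.RW (minv)
open Pool.Agent.X65.MS (Tb look keys Bl look_map look_map_not mem_keys minv_le_bound
  build build_inv all_seen build_length eN eN_eq poly_minv poly_look poly_keys look_le Bd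
  length_keys poly_build)

section

variable {n : ℕ} {G : SimpleGraph (Fin n)}

theorem adj_build (hG : G.IsTree) {a b : Fin n} : G.Adj a b ↔ ∃ e ∈ build (adjMatrix G),
    (e.1 = (a : ℕ) ∧ e.2 = (b : ℕ)) ∨ (e.1 = (b : ℕ) ∧ e.2 = (a : ℕ)) := by
  classical
  constructor
  · intro hab
    have h1 : s((a : ℕ), (b : ℕ)) ∈ eN G := by
      unfold eN
      rw [Finset.mem_image]
      refine ⟨s(a, b), ?_, by simp⟩
      rw [Finset.mem_filter]
      exact ⟨Finset.mem_univ _, hab⟩
    rw [eN_eq hG, List.mem_toFinset, List.mem_map] at h1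
    obtain ⟨e, he, h2⟩ := h1
    rw [Sym2.eq_iff] at h2
    exact ⟨e, he, h2⟩
  · rintro ⟨e, he, h⟩
    have hme := (build_inv (adjMatrix G)).2 e he
    rcases h with ⟨h1, h2⟩ | ⟨h1, h2⟩
    · rw [h1, h2] at hme
      exact (me_adj G a b).1 hme
    · rw [h1, h2] at hme
      exact ((me_adj G b a).1 hme).symm

theorem perm_range (hG : G.Connected) :
    (0 :: (build (adjMatrix G)).map Prod.fst).Perm (List.range n) := by
  have hn : 0 < n := by
    obtain ⟨v⟩ := hG.nonempty
    exact lt_of_le_of_lt (Nat.zero_le _) v.isLt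
  have hb := (build_inv (adjMatrix G)).1
  rw [length_adjMatrix] at hb
  rw [List.perm_ext_iff_of_nodup (Bl.nodup hb) List.nodup_range]
  intro u
  rw [List.mem_range]
  exact ⟨Bl.lt hn hb u, fun hu => all_seen hG ⟨u, hu⟩⟩

theorem good_iff (hG : G.IsTree) (S : ℕ → Bool) (C : ℕ → ℕ) :
    Good (build (adjMatrix G)) S C ↔ IsCol G (fun v => C v) ∧
      UpDom G (fun v => C v) (Finset.univ.filter fun v : Fin n => S v = true) := by
  have hlt : ∀ u, u ∈ 0 :: (build (adjMatrix G)).map Prod.fst ↔ u < n := by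
    intro u
    rw [(perm_range hG.1).mem_iff, List.mem_range]
  have hD : ∀ u : Fin n, Dm S C (build (adjMatrix G)) u ↔ ∃ v : Fin n, G.Adj u v ∧
      S v = true ∧ C u < C v := by
    intro u
    unfold Dm
    constructor
    · rintro ⟨e, he, h⟩
      have hb := (build_inv (adjMatrix G)).1
      have h1 : e.1 < n := (hlt _).1 (List.mem_cons_of_mem _ (List.mem_map.2 ⟨e, he, rfl⟩))
      have h2 : e.2 < n := (hlt _).1 (Bl.par hb e he)
      rcases h with h | h
      · exact ⟨⟨e.2, h2⟩, (adj_build hG).2 ⟨e, he, Or.inl ⟨h.1, rfl⟩⟩, h.2⟩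
      · exact ⟨⟨e.1, h1⟩, (adj_build hG).2 ⟨e, he, Or.inr ⟨rfl, h.1⟩⟩, h.2⟩
    · rintro ⟨v, huv, h⟩
      obtain ⟨e, he, h1 | h1⟩ := (adj_build hG).1 huv
      · exact ⟨e, he, Or.inl ⟨h1.1, by rw [h1.2]; exact h⟩⟩
      · exact ⟨e, he, Or.inr ⟨h1.2, by rw [h1.1]; exact h⟩⟩
  constructor
  · rintro ⟨h1, h2⟩
    refine ⟨?_, ?_, ?_⟩
    · intro u v huv
      obtain ⟨e, he, h3 | h3⟩ := (adj_build hG).1 huv
      · have := h1 e he
        rw [h3.1, h3.2] at this
        exact this
      · have := h1 e he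
        rw [h3.1, h3.2] at this
        exact this.symm
    · intro d hd
      rw [Finset.mem_filter] at hd
      rcases h2 d ((hlt _).2 d.isLt) with h3 | h3
      · exact h3.2
      · rw [h3.1] at hd
        exact absurd hd.2 (by simp)
    · intro v hv
      rcases h2 v ((hlt _).2 v.isLt) with h3 | h3
      · rw [Finset.mem_filter] at hv
        exact absurd ⟨Finset.mem_univ _, h3.1⟩ hv
      · obtain ⟨w, h4, h5, h6⟩ := (hD v).1 h3.2
        exact ⟨w, Finset.mem_filter.2 ⟨Finset.mem_univ _, h5⟩, h4, h6⟩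
  · rintro ⟨h1, h2, h3⟩
    have hb := (build_inv (adjMatrix G)).1
    constructor
    · intro e he
      have h4 : e.1 < n := (hlt _).1 (List.mem_cons_of_mem _ (List.mem_map.2 ⟨e, he, rfl⟩))
      have h5 : e.2 < n := (hlt _).1 (Bl.par hb e he)
      exact h1 ⟨e.1, h4⟩ ⟨e.2, h5⟩ ((adj_build hG).2 ⟨e, he, Or.inl ⟨rfl, rfl⟩⟩)
    · intro u hu
      have hu' := (hlt u).1 hu
      cases hs : S u with
      | true => exact Or.inl ⟨rfl, h2 ⟨u, hu'⟩ (Finset.mem_filter.2 ⟨Finset.mem_univ _, hs⟩)⟩
      | false =>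
        right
        refine ⟨rfl, (hD ⟨u, hu'⟩).2 ?_⟩
        obtain ⟨w, h4, h5, h6⟩ := h3 ⟨u, hu'⟩ (by
          rw [Finset.mem_filter]
          rintro ⟨_, h⟩
          simp only at h
          rw [hs] at h
          exact absurd h (by simp))
        exact ⟨w, h5, (Finset.mem_filter.1 h4).2, h6⟩

theorem wgt_eq (hG : G.IsTree) (S : ℕ → Bool) (C : ℕ → ℕ) : wgt (build (adjMatrix G)) S C =
    ∑ d ∈ Finset.univ.filter (fun v : Fin n => S v = true), C d := by
  unfold wgt
  rw [((perm_range hG.1).map _).sum_eq, ← List.sum_toFinset _ List.nodup_range,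
    List.toFinset_range, Finset.sum_range, Finset.sum_filter]

/-- the algorithm -/
def algT (A : List (List Bool)) : ℕ := ans A.length (A.length * A.length + 3) (build A)

theorem algT_spec (hG : G.IsTree) : OmegaUC G = ((algT (adjMatrix G) : ℕ) : ℕ∞) := by
  classical
  have hn : 0 < n := by
    obtain ⟨v⟩ := hG.1.nonempty
    exact lt_of_le_of_lt (Nat.zero_le _) v.isLt
  have hb := (build_inv (adjMatrix G)).1
  rw [length_adjMatrix] at hb
  unfold algT
  rw [length_adjMatrix]
  refine le_antisymm ?_ (le_iInf fun c => le_iInf fun D => ?_)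
  · have h3 : ans n (n * n + 3) (build (adjMatrix G)) < n * n + 3 :=
      ans_lt hn (by omega) hb (by omega)
    obtain ⟨S, C, hg, hs⟩ := exists_ans hb h3
    obtain ⟨g1, g2⟩ := (good_iff hG S C).1 hg
    rw [wgt_eq hG] at hs
    exact le_iff.2 ⟨_, _, g1, g2, hs.le⟩
  · obtain ⟨c, hc⟩ := c
    obtain ⟨D, hD⟩ := D
    simp only
    set S : ℕ → Bool := fun u => if h : u < n then decide ((⟨u, h⟩ : Fin n) ∈ D) else false with hS
    set C : ℕ → ℕ := fun u => if h : u < n then c ⟨u, h⟩ else 0 with hC
    have hC' : (fun v : Fin n => C v) = c := by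
      funext v
      simp only [hC]
      rw [dif_pos v.isLt]
    have hS' : (Finset.univ.filter fun v : Fin n => S v = true) = D := by
      ext v
      rw [Finset.mem_filter]
      simp only [hS]
      rw [dif_pos v.isLt]
      simp
    have hg : Good (build (adjMatrix G)) S C := by
      rw [good_iff hG, hC', hS']
      exact ⟨hc, hD⟩
    have h1 := ans_le (M := n * n + 3) hn (by omega) hb hg
    rw [wgt_eq hG, hS'] at h1
    have h2 : ∑ d ∈ D, C d = ∑ d ∈ D, c d := Finset.sum_congr rfl fun d _ => congrFun hC' d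
    rw [h2] at h1
    exact_mod_cast h1

end

attribute [local irreducible] me

section

variable {α : Type} [TEnc α]

attribute [local fun_prop] NPC.Poly.range_length poly_look poly_minv poly_keys

theorem poly_upx {x c y d : α → ℕ} (hx : NPC.Poly x) (hc : NPC.Poly c) (hy : NPC.Poly y)
    (hd : NPC.Poly d) : NPC.Poly (fun a => upx (x a) (c a) (y a) (d a)) := by
  have h : NPC.Poly (fun a => if (decide (x a = 0) && (decide (y a = 2) && decide (c a < d a))) =
      true then 1 else x a) := by fun_prop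
  refine h.congr fun a => ?_
  unfold upx
  simp only [Bool.and_eq_true, decide_eq_true_eq]

theorem poly_lox {x c d : α → ℕ} (hx : NPC.Poly x) (hc : NPC.Poly c) (hd : NPC.Poly d) :
    NPC.Poly (fun a => lox (x a) (c a) (d a)) := by
  have h : NPC.Poly (fun a => if (decide (x a = 2) && decide (d a < c a)) =
      true then 1 else 0) := by fun_prop
  refine h.congr fun a => ?_
  unfold lox
  simp only [Bool.and_eq_true, decide_eq_true_eq]

attribute [local fun_prop] poly_upx poly_lox

theorem poly_opts {S : α → List ℕ} {t : α → Tb} {v p x c : α → ℕ} (hS : NPC.Poly S)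
    (ht : NPC.Poly t) (hv : NPC.Poly v) (hp : NPC.Poly p) (hx : NPC.Poly x) (hc : NPC.Poly c) :
    NPC.Poly (fun a => opts (S a).length (t a) (v a) (p a) (x a) (c a)) := by
  unfold opts
  fun_prop

attribute [local fun_prop] poly_opts

theorem poly_nxt {R S : α → List ℕ} {t : α → Tb} {e : α → ℕ × ℕ} (hR : NPC.Poly R)
    (hS : NPC.Poly S) (ht : NPC.Poly t) (he : NPC.Poly e) :
    NPC.Poly (fun x => nxt (R x).length (S x).length (t x) (e x)) := by
  unfold nxt
  fun_prop

theorem poly_ini {R S : α → List ℕ} (hR : NPC.Poly R) (hS : NPC.Poly S) :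
    NPC.Poly (fun x => ini (R x).length (S x).length) := by
  unfold ini iv
  fun_prop

end

theorem bd_ini (n M : ℕ) : Bd n M (ini n M) := by
  unfold ini
  refine ⟨by simp, ?_⟩
  intro e he
  rw [List.mem_map] at he
  obtain ⟨q, hq, rfl⟩ := he
  refine ⟨hq, ?_⟩
  obtain ⟨u, x, c⟩ := q
  rw [mem_keys] at hq
  unfold iv
  simp only
  split_ifs <;> omega

theorem bd_nxt {n M : ℕ} {t : Tb} (h : Bd n M t) (e : ℕ × ℕ) : Bd n M (nxt n M t e) := by
  unfold nxt
  refine ⟨by simp, ?_⟩
  intro f hf
  rw [List.mem_map] at hf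
  obtain ⟨q, hq, rfl⟩ := hf
  refine ⟨hq, ?_⟩
  simp only
  split_ifs
  · exact minv_le_bound _ _
  · exact look_le (fun e he => (h.2 e he).2) q

theorem bd_fold {n M : ℕ} : ∀ (es : List (ℕ × ℕ)) (t : Tb), Bd n M t →
    Bd n M (es.foldl (nxt n M) t)
  | [], _, h => h
  | e :: es, t, h => bd_fold es _ (bd_nxt h e)

theorem poly_fin_aux : NPC.Poly (fun x : List ℕ × List ℕ × List (ℕ × ℕ) =>
    fin x.1.length x.2.1.length x.2.2) := by
  unfold fin
  refine NPC.Poly.foldl (l := fun x : List ℕ × List ℕ × List (ℕ × ℕ) => x.2.2)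
    (s := fun x => ini x.1.length x.2.1.length)
    (F := fun x t e => nxt x.1.length x.2.1.length t e) (by fun_prop) ?_ ?_
    (Polynomial.X * (Polynomial.X * Polynomial.X) * (Polynomial.C 16 * Polynomial.X +
      Polynomial.C 8) + Polynomial.C 1) ?_
  · exact poly_ini (by fun_prop) (by fun_prop)
  · exact poly_nxt (by fun_prop) (by fun_prop) (by fun_prop) (by fun_prop)
  · rintro ⟨R, S, es⟩ k _
    simp only
    have h1 := bd_fold (es.take k) _ (bd_ini R.length S.length)
    set t := (es.take k).foldl (nxt R.length S.length) (ini R.length S.length) with ht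
    have h3 : R.length < sz R := length_lt_sz R
    have h4 : S.length < sz S := length_lt_sz S
    have h5 : sz (R, S, es) = sz R + (sz S + sz es + 1) + 1 := by
      simp only [sz_pair]
    have h6 : ∀ e ∈ t, sz e ≤ 16 * sz (R, S, es) + 7 := by
      rintro ⟨⟨u, x, c⟩, m⟩ he
      obtain ⟨h7, h8⟩ := h1.2 _ he
      rw [mem_keys] at h7
      have g1 := sz_nat_le_linear u
      have g2 := sz_nat_le_linear x
      have g3 := sz_nat_le_linear c
      have g4 := sz_nat_le_linear m
      have g5 : sz ((u, x, c), m) = (sz u + (sz x + sz c + 1) + 1) + sz m + 1 := by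
        simp only [sz_pair]
      simp only at h8
      omega
    have h9 := sz_le_length_mul t _ h6
    change sz t ≤ _
    refine h9.trans ?_
    simp only [Polynomial.eval_add, Polynomial.eval_mul, Polynomial.eval_C, Polynomial.eval_X]
    rw [h1.1, length_keys]
    have h10 : R.length ≤ sz (R, S, es) := by omega
    have h11 : S.length ≤ sz (R, S, es) := by omega
    have h12 : R.length * (S.length * S.length) ≤
        sz (R, S, es) * (sz (R, S, es) * sz (R, S, es)) :=
      Nat.mul_le_mul h10 (Nat.mul_le_mul h11 h11)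
    have h14 : 16 * sz (R, S, es) + 7 + 1 = 16 * sz (R, S, es) + 8 := by omega
    rw [h14]
    exact Nat.add_le_add_right (Nat.mul_le_mul_right _ h12) 1

section

variable {α : Type} [TEnc α]

theorem poly_fin {R S : α → List ℕ} {es : α → List (ℕ × ℕ)} (hR : NPC.Poly R)
    (hS : NPC.Poly S) (he : NPC.Poly es) :
    NPC.Poly (fun x => fin (R x).length (S x).length (es x)) := by
  have h := NPC.Poly.comp poly_fin_aux (NPC.Poly.pair hR (NPC.Poly.pair hS he))
  exact h

attribute [local fun_prop] poly_fin NPC.Poly.range_length poly_look poly_minv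

theorem poly_ans {R S : α → List ℕ} {es : α → List (ℕ × ℕ)} (hR : NPC.Poly R)
    (hS : NPC.Poly S) (he : NPC.Poly es) :
    NPC.Poly (fun x => ans (R x).length (S x).length (es x)) := by
  unfold ans
  refine poly_minv hS ?_
  fun_prop

end

theorem poly_algT : NPC.Poly algT := by
  have h1 : NPC.Poly (fun A : List (List Bool) => List.range A.length) :=
    NPC.Poly.range_length NPC.Poly.id
  have h2 : NPC.Poly (fun A : List (List Bool) => List.range (A.length * A.length + 3)) :=
    (((UPoly.length NPC.Poly.id).mul (UPoly.length NPC.Poly.id)).add (UPoly.const 3)).range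
  refine (poly_ans h1 h2 poly_build).congr fun A => ?_
  unfold algT
  rw [List.length_range, List.length_range]

/-- **Trees.** -/
theorem trees : ∃ A : List Bool → List Bool, PolyTime A ∧
    ∀ (n : ℕ) (G : SimpleGraph (Fin n)), G.IsTree →
      ∃ m : ℕ, A (bits (adjMatrix G)) = bits m ∧ OmegaUC G = (m : ℕ∞) := by
  have h0 : NPC.Poly (fun y : List Bool × List (List Bool) => algT y.2) :=
    NPC.Poly.comp poly_algT (NPC.Poly.snd NPC.Poly.id)
  have h1 : NPC.Poly (fun x : List Bool => (unbits (List (List Bool)) x).map algT) :=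
    NPC.Poly.optMap_fp (h := fun _ y => algT y) poly_unbits h0
  refine ⟨_, polyTime_opt h1, ?_⟩
  intro n G hG
  refine ⟨algT (adjMatrix G), ?_, algT_spec hG⟩
  simp only [unbits_bits, Option.map_some]

end Pool.Agent.X65.UC
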