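import Pool.Agent.X65.UC.Red
import Pool.Agent.X249.Kit
import Pool.Agent.H671R2.OOF.NP

/-!
# The reduction is computable in polynomial time; membership in NP
-/

set_option autoImplicit false

namespace Pool.Agent.X65.UC

open Pool.Agent.NPC Pool.Agent.NPC.R671 Pool.Agent.X130 Pool.Agent.H671R2.Ord

section

variable {α : Type} [TEnc α]

theorem poly_cla {φ : α → Fm} {j : α → ℕ} (hφ : NPC.Poly φ) (hj : NPC.Poly j) :
    NPC.Poly (fun x => cla (φ x) (j x)) := by
  unfold cla
  fun_prop

attribute [local fun_prop] poly_cla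

theorem poly_mc {c : α → ℕ × ℕ × ℕ} {x : α → ℕ} (hc : NPC.Poly c) (hx : NPC.Poly x) :
    NPC.Poly (fun a => mc (c a) (x a)) := by
  unfold mc
  fun_prop

attribute [local fun_prop] poly_mc

theorem poly_inc {φ : α → Fm} {x b e : α → ℕ} (hφ : NPC.Poly φ) (hx : NPC.Poly x)
    (hb : NPC.Poly b) (he : NPC.Poly e) : NPC.Poly (fun a => inc (φ a) (x a) (b a) (e a)) := by
  unfold inc
  fun_prop

attribute [local fun_prop] poly_inc

theorem poly_ad0 {φ : α → Fm} {a b : α → ℕ × ℕ × ℕ} (hφ : NPC.Poly φ) (ha : NPC.Poly a)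
    (hb : NPC.Poly b) : NPC.Poly (fun x => ad0 (φ x) (a x) (b x)) := by
  unfold ad0
  fun_prop

attribute [local fun_prop] poly_ad0

theorem poly_ad {φ : α → Fm} {a b : α → ℕ × ℕ × ℕ} (hφ : NPC.Poly φ) (ha : NPC.Poly a)
    (hb : NPC.Poly b) : NPC.Poly (fun x => ad (φ x) (a x) (b x)) := by
  unfold ad
  fun_prop

theorem poly_ok {φ : α → Fm} {a : α → ℕ × ℕ × ℕ} (hφ : NPC.Poly φ) (ha : NPC.Poly a) :
    NPC.Poly (fun x => ok (φ x) (a x)) := by
  unfold ok
  fun_prop

end

theorem poly_vs : NPC.Poly vs := by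
  have h0 : NPC.Poly (fun _ : Fm => List.range 4) := NPC.Poly.const _
  have h1 : NPC.Poly (fun φ : Fm => List.range (5 * φ.length + 1)) :=
    (((UPoly.const 5).mul (UPoly.length NPC.Poly.id)).add (UPoly.const 1)).range
  have h2 : NPC.Poly (fun φ : Fm => List.range (3 * φ.length + 3)) :=
    (((UPoly.const 3).mul (UPoly.length NPC.Poly.id)).add (UPoly.const 3)).range
  unfold vs
  exact NPC.Poly.filter (p := fun (φ : Fm) a => ok φ a)
    (poly_product h0 (poly_product h1 h2)) (poly_ok (by fun_prop) (by fun_prop))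

theorem poly_mat : NPC.Poly (fun φ => adjMatrix (gr φ)) := by
  have h1 : NPC.Poly (fun φ : Fm => (vs φ).map (fun u => (vs φ).map (fun w => ad φ u w))) := by
    refine NPC.Poly.map (F := fun φ u => (vs φ).map (fun w => ad φ u w)) poly_vs ?_
    refine NPC.Poly.map (l := fun x : Fm × (ℕ × ℕ × ℕ) => vs x.1)
      (F := fun x w => ad x.1 x.2 w) (poly_vs.comp (NPC.Poly.fst NPC.Poly.id)) ?_
    exact poly_ad (by fun_prop) (by fun_prop) (by fun_prop)
  exact h1.congr fun φ => (adjMatrix_listGraph _ _ _ _).symm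

theorem poly_K : NPC.Poly K := by
  unfold K
  fun_prop

theorem poly_out : NPC.Poly (fun φ => (adjMatrix (gr φ), K φ)) := NPC.Poly.pair poly_mat poly_K

/-- The decision problem UCW for bipartite graphs: the input is the adjacency matrix of a bipartite
graph `G` and a positive integer `k`; the question is whether `Ω_uc(G) ≤ k`. -/
def UCWBip (x : List (List Bool) × ℕ) : Prop :=
  ∃ (n : ℕ) (G : SimpleGraph (Fin n)), adjMatrix G = x.1 ∧ G.IsBipartite ∧ 0 < x.2 ∧
    OmegaUC G ≤ (x.2 : ℕ)

theorem inj_aux {P : ∀ {n : ℕ}, SimpleGraph (Fin n) → Prop} {n m : ℕ} {G : SimpleGraph (Fin n)}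
    {H : SimpleGraph (Fin m)} (h : adjMatrix G = adjMatrix H) (hG : P G) : P H := by
  have hnm : n = m := by rw [← length_adjMatrix G, h, length_adjMatrix]
  subst hnm
  rw [← adjMatrix_inj h]
  exact hG

theorem hardI_UCWBip : HardI UCWBip := by
  refine (hardPr_NAEN.trans (Pr' := fun _ => True) poly_out (fun _ _ => trivial)
    (Q := UCWBip) fun φ hs => ?_).toHardI
  constructor
  · intro h
    exact ⟨_, gr φ, rfl, bip φ, by unfold K; simp only; omega, le_of_sat hs h⟩
  · rintro ⟨n, G, hG, _, _, hc⟩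
    have h1 : OmegaUC (gr φ) ≤ (K φ : ℕ) :=
      inj_aux (P := fun {n} G => OmegaUC G ≤ (K φ : ℕ)) hG hc
    exact sat_of_le h1

/-! ### Membership in NP -/

/-- certificates: for each vertex, its color, whether it is in the set, and its side -/
abbrev W : Type := List (ℕ × (Bool × Bool))

/-- the entry of a vertex -/
def gc (l : W) (i : ℕ) : ℕ × (Bool × Bool) := l.getD i (0, false, false)

/-- check of the edges -/
def chkE (M : List (List Bool)) (l : W) : Bool :=
  (List.range M.length).all (fun i => (List.range M.length).all (fun j =>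
    !(me M i j) || (!decide ((gc l i).1 = (gc l j).1) && !decide ((gc l i).2.2 = (gc l j).2.2))))

/-- check of the domination -/
def chkD (M : List (List Bool)) (l : W) : Bool :=
  (List.range M.length).all (fun i => ((gc l i).2.1 && !decide ((gc l i).1 = 0)) ||
    (!(gc l i).2.1 && (List.range M.length).any (fun j =>
      me M i j && ((gc l j).2.1 && decide ((gc l i).1 < (gc l j).1)))))

/-- the weight -/
def wt (l : W) : ℕ := (l.map (fun a => if a.2.1 = true then a.1 else 0)).sum

/-- the verifier -/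
def Rg (x : (List (List Bool) × ℕ) × W) : Bool :=
  wf x.1.1 && (decide (x.2.length = x.1.1.length) && (decide (0 < x.1.2) &&
    (x.2.all (fun a => decide (a.1 ≤ x.1.2)) && (chkE x.1.1 x.2 && (chkD x.1.1 x.2 &&
      decide (wt x.2 ≤ x.1.2))))))

theorem gc_ofFn {n : ℕ} (f : Fin n → ℕ × (Bool × Bool)) (i : Fin n) :
    gc (List.ofFn f) i = f i := by
  unfold gc
  rw [List.getD_eq_getElem?_getD, List.getElem?_eq_getElem (by
    rw [List.length_ofFn]; exact i.isLt), List.getElem_ofFn]
  rfl

theorem chkE_iff {n : ℕ} (G : SimpleGraph (Fin n)) (f : Fin n → ℕ × (Bool × Bool)) :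
    chkE (adjMatrix G) (List.ofFn f) = true ↔
      ∀ u v, G.Adj u v → (f u).1 ≠ (f v).1 ∧ (f u).2.2 ≠ (f v).2.2 := by
  simp only [chkE, length_adjMatrix, List.all_eq_true, List.mem_range, Bool.or_eq_true,
    Bool.not_eq_true', Bool.and_eq_true, decide_eq_false_iff_not]
  constructor
  · intro h u v huv
    have h1 := h u u.isLt v v.isLt
    rw [gc_ofFn f u, gc_ofFn f v] at h1
    rcases h1 with h1 | h1
    · rw [(me_adj G u v).2 huv] at h1
      exact absurd h1 (by simp)
    · exact h1
  · intro h i hi j hj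
    have hi' := gc_ofFn f ⟨i, hi⟩
    have hj' := gc_ofFn f ⟨j, hj⟩
    simp only at hi' hj'
    rw [hi', hj']
    have hm := me_adj G ⟨i, hi⟩ ⟨j, hj⟩
    simp only at hm
    by_cases h1 : me (adjMatrix G) i j = true
    · exact Or.inr (h _ _ (hm.1 h1))
    · exact Or.inl (by simpa using h1)

theorem chkD_iff {n : ℕ} (G : SimpleGraph (Fin n)) (f : Fin n → ℕ × (Bool × Bool)) :
    chkD (adjMatrix G) (List.ofFn f) = true ↔
      ∀ u, ((f u).2.1 = true ∧ (f u).1 ≠ 0) ∨ ((f u).2.1 = false ∧
        ∃ v, G.Adj u v ∧ (f v).2.1 = true ∧ (f u).1 < (f v).1) := by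
  simp only [chkD, length_adjMatrix, List.all_eq_true, List.any_eq_true, List.mem_range,
    Bool.or_eq_true, Bool.not_eq_true', Bool.and_eq_true, decide_eq_false_iff_not,
    decide_eq_true_eq]
  constructor
  · intro h u
    have h1 := h u u.isLt
    rw [gc_ofFn f u] at h1
    rcases h1 with h1 | ⟨h1, j, hj, h2, h3⟩
    · exact Or.inl h1
    · have hj' := gc_ofFn f ⟨j, hj⟩
      simp only at hj'
      rw [hj'] at h3
      have hm := me_adj G u ⟨j, hj⟩
      simp only at hm
      exact Or.inr ⟨h1, ⟨j, hj⟩, hm.1 h2, h3⟩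
  · intro h i hi
    have hi' := gc_ofFn f ⟨i, hi⟩
    simp only at hi'
    rw [hi']
    rcases h ⟨i, hi⟩ with h1 | ⟨h1, v, h2, h3⟩
    · exact Or.inl h1
    · refine Or.inr ⟨h1, v, v.isLt, ?_, ?_⟩
      · have hm := me_adj G ⟨i, hi⟩ v
        simp only at hm
        exact hm.2 h2
      · rw [gc_ofFn f v]
        exact h3

theorem wt_ofFn {n : ℕ} (f : Fin n → ℕ × (Bool × Bool)) :
    wt (List.ofFn f) = ∑ i ∈ Finset.univ.filter (fun i => (f i).2.1 = true), (f i).1 := by
  unfold wt
  rw [List.map_ofFn, List.sum_ofFn, Finset.sum_filter]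
  rfl

theorem iff_cert (x : List (List Bool) × ℕ) : UCWBip x ↔ ∃ w : W, Rg (x, w) = true := by
  classical
  obtain ⟨M, k⟩ := x
  constructor
  · rintro ⟨n, G, hM, hbip, hk, hle⟩
    simp only at hM hk hle
    subst hM
    obtain ⟨c, D, hc, ⟨hD0, hD⟩, hw⟩ := le_iff.1 hle
    obtain ⟨C⟩ := hbip
    have hDk : ∀ v ∈ D, c v ≤ k := fun v hv =>
      (Finset.single_le_sum (f := c) (fun _ _ => Nat.zero_le _) hv).trans hw
    set f : Fin n → ℕ × (Bool × Bool) := fun v => (c v, decide (v ∈ D), decide (C v = 0)) with hf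
    refine ⟨List.ofFn f, ?_⟩
    simp only [Rg, Bool.and_eq_true]
    refine ⟨(wf_iff _).2 ⟨n, G, rfl⟩, ?_, ?_, ?_, ?_, ?_, ?_⟩
    · simp [length_adjMatrix]
    · simpa using hk
    · rw [List.all_eq_true]
      intro a ha
      rw [List.mem_ofFn] at ha
      obtain ⟨i, rfl⟩ := ha
      rw [decide_eq_true_eq]
      by_cases hi : i ∈ D
      · exact hDk i hi
      · obtain ⟨d, hd, _, h3⟩ := hD i hi
        exact h3.le.trans (hDk d hd)
    · rw [chkE_iff]
      intro u v huv
      refine ⟨hc u v huv, ?_⟩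
      have h1 := C.valid huv
      simp only [hf]
      revert h1
      generalize C u = a
      generalize C v = b
      revert a b
      decide
    · rw [chkD_iff]
      intro u
      by_cases hu : u ∈ D
      · exact Or.inl ⟨by simpa [hf] using hu, hD0 u hu⟩
      · obtain ⟨d, hd, h2, h3⟩ := hD u hu
        exact Or.inr ⟨by simpa [hf] using hu, d, h2, by simpa [hf] using hd, h3⟩
    · rw [wt_ofFn, decide_eq_true_eq]
      refine le_trans (le_of_eq ?_) hw
      refine Finset.sum_congr ?_ fun _ _ => rfl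
      ext v
      simp [hf]
  · rintro ⟨w, hw⟩
    simp only [Rg, Bool.and_eq_true, decide_eq_true_eq] at hw
    obtain ⟨h1, h2, h3, _, h5, h6, h7⟩ := hw
    obtain ⟨n, G, rfl⟩ := (wf_iff M).1 h1
    rw [length_adjMatrix] at h2
    obtain ⟨f, rfl⟩ : ∃ f : Fin n → ℕ × (Bool × Bool), w = List.ofFn f := by
      subst h2
      exact ⟨fun i => w[i], (List.ext_getElem (by simp) fun i hi hi' => by simp).symm⟩
    rw [chkE_iff] at h5
    rw [chkD_iff] at h6
    rw [wt_ofFn] at h7
    refine ⟨_, G, rfl, ?_, h3, le_iff.2 ⟨fun v => (f v).1,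
      Finset.univ.filter (fun v => (f v).2.1 = true), ?_, ⟨?_, ?_⟩, h7⟩⟩
    · have C : G.Coloring Bool := SimpleGraph.Coloring.mk (fun v => (f v).2.2)
        fun {u v} huv => (h5 u v huv).2
      have := C.colorable
      rwa [Fintype.card_bool] at this
    · intro u v huv
      exact (h5 u v huv).1
    · intro d hd
      rw [Finset.mem_filter] at hd
      rcases h6 d with h8 | h8
      · exact h8.2
      · rw [h8.1] at hd
        exact absurd hd.2 (by simp)
    · intro v hv
      rw [Finset.mem_filter] at hv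
      rcases h6 v with h8 | ⟨_, d, h9, h10, h11⟩
      · exact absurd ⟨Finset.mem_univ v, h8.1⟩ hv
      · exact ⟨d, Finset.mem_filter.2 ⟨Finset.mem_univ _, h10⟩, h9, h11⟩

attribute [local irreducible] me

section

variable {α : Type} [TEnc α]

theorem poly_gc {l : α → W} {i : α → ℕ} (hl : NPC.Poly l) (hi : NPC.Poly i) :
    NPC.Poly (fun x => gc (l x) (i x)) := by
  unfold gc
  fun_prop

end

attribute [local fun_prop] poly_gc

theorem chkE_poly : NPC.Poly (fun x : List (List Bool) × W => chkE x.1 x.2) := by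
  unfold chkE
  refine all2_poly (α := List (List Bool) × W) (m := fun x => x.1.length)
    (UPoly.length (by fun_prop)) (F := fun x i j =>
      !(me x.1 i j) || (!decide ((gc x.2 i).1 = (gc x.2 j).1) &&
        !decide ((gc x.2 i).2.2 = (gc x.2 j).2.2))) ?_
  fun_prop

theorem chkD_poly : NPC.Poly (fun x : List (List Bool) × W => chkD x.1 x.2) := by
  unfold chkD
  have hm : UPoly (fun x : List (List Bool) × W => x.1.length) := UPoly.length (by fun_prop)
  refine NPC.Poly.all (l := fun x : List (List Bool) × W => List.range x.1.length)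
    (p := fun x i => ((gc x.2 i).2.1 && !decide ((gc x.2 i).1 = 0)) ||
    (!(gc x.2 i).2.1 && (List.range x.1.length).any (fun j =>
      me x.1 i j && ((gc x.2 j).2.1 && decide ((gc x.2 i).1 < (gc x.2 j).1))))) hm.range ?_
  have h1 : NPC.Poly (fun x : (List (List Bool) × W) × ℕ =>
      (List.range x.1.1.length).any (fun j =>
        me x.1.1 x.2 j && ((gc x.1.2 j).2.1 && decide ((gc x.1.2 x.2).1 < (gc x.1.2 j).1)))) := by
    refine NPC.Poly.any (l := fun x : (List (List Bool) × W) × ℕ => List.range x.1.1.length)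
      (p := fun x j => me x.1.1 x.2 j &&
        ((gc x.1.2 j).2.1 && decide ((gc x.1.2 x.2).1 < (gc x.1.2 j).1)))
      (hm.range.comp (NPC.Poly.fst NPC.Poly.id)) ?_
    fun_prop
  fun_prop

theorem wt_poly : NPC.Poly wt := by
  unfold wt
  fun_prop

theorem Rg_poly : NPC.Poly Rg := by
  unfold Rg
  refine NPC.Poly.and (wf_poly.comp (by fun_prop)) (NPC.Poly.and ?_ (NPC.Poly.and ?_
    (NPC.Poly.and ?_ (NPC.Poly.and ?_ (NPC.Poly.and ?_ ?_)))))
  · have h1 : NPC.Poly (fun x : (List (List Bool) × ℕ) × W => x.2.length) :=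
      NPC.Poly.length (by fun_prop)
    have h2 : NPC.Poly (fun x : (List (List Bool) × ℕ) × W => x.1.1.length) :=
      NPC.Poly.length (by fun_prop)
    exact NPC.Poly.dec_eq h1 h2
  · fun_prop
  · refine NPC.Poly.all (l := fun x : (List (List Bool) × ℕ) × W => x.2)
      (p := fun x a => decide (a.1 ≤ x.1.2)) (by fun_prop) ?_
    fun_prop
  · have h := NPC.Poly.comp chkE_poly (NPC.Poly.pair
      (f := fun x : (List (List Bool) × ℕ) × W => x.1.1) (g := fun x => x.2)
      (by fun_prop) (by fun_prop))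
    exact h
  · have h := NPC.Poly.comp chkD_poly (NPC.Poly.pair
      (f := fun x : (List (List Bool) × ℕ) × W => x.1.1) (g := fun x => x.2)
      (by fun_prop) (by fun_prop))
    exact h
  · have h : NPC.Poly (fun x : (List (List Bool) × ℕ) × W => wt x.2) :=
      NPC.Poly.comp wt_poly (by fun_prop)
    fun_prop

/-- certificates are short -/
theorem Rg_short {x : List (List Bool) × ℕ} {w : W} (h : Rg (x, w) = true) :
    sz w ≤ (2 * Polynomial.X ^ 2 + 10 * Polynomial.X + 1 : Polynomial ℕ).eval (sz x) := by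
  simp only [Rg, Bool.and_eq_true, decide_eq_true_eq, List.all_eq_true] at h
  obtain ⟨_, h4, _, hle, _⟩ := h
  obtain ⟨M, k⟩ := x
  have hsz : ∀ a ∈ w, sz a ≤ 2 * sz k + 8 := by
    intro a ha
    have h1 := sz_nat_mono_le (hle a ha)
    obtain ⟨a1, a2, a3⟩ := a
    have h2 := sz_bool_le a2
    have h3 := sz_bool_le a3
    simp only [sz_pair]
    simp only at h1
    omega
  have h5 := sz_le_length_mul w _ hsz
  have h1 : M.length ≤ sz M := (length_lt_sz M).le
  simp only [Polynomial.eval_add, Polynomial.eval_mul, Polynomial.eval_pow, Polynomial.eval_X,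
    Polynomial.eval_ofNat, Polynomial.eval_one, sz_pair]
  simp only at h4
  rw [h4] at h5
  nlinarith [Nat.zero_le (sz k), Nat.zero_le (sz M)]

/-- The problem is in `NP`. -/
theorem inNPP_UCWBip : InNPP UCWBip := by
  refine inNPP_of (R := Rg) Rg_poly (2 * Polynomial.X ^ 2 + 10 * Polynomial.X + 1) ?_
  intro x
  rw [iff_cert]
  exact exists_congr fun w => ⟨fun h => ⟨Rg_short h, h⟩, fun h => h.2⟩

end Pool.Agent.X65.UC
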