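import Pool.Agent.X65.UC.Defs
import Pool.Agent.H671R2.PolyAuto
import Pool.Agent.X130.Nae

/-!
# The bipartite graph of a not-all-equal formula

Labels `(t, i, k)`: the root is `(0, 0, 0)`; the pendants are `(1, 0, k)`; the set vertices are
`(2, x, b)`, with `x` a variable and `b < 2`; the element vertices are `(3, e, k)`.
-/

set_option autoImplicit false

namespace Pool.Agent.X65.UC

open Pool.Agent.NPC Pool.Agent.NPC.R671 Pool.Agent.X130

/-- formulas -/
abbrev Fm : Type := List (ℕ × ℕ × ℕ)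

/-- clause number `j` -/
def cla (φ : Fm) (j : ℕ) : ℕ × ℕ × ℕ := φ.getD j (0, 0, 0)

/-- membership in a clause -/
def mc (c : ℕ × ℕ × ℕ) (x : ℕ) : Bool :=
  decide (c.1 = x) || (decide (c.2.1 = x) || decide (c.2.2 = x))

/-- the set vertex `(x, b)` covers the element `e` -/
def inc (φ : Fm) (x b e : ℕ) : Bool :=
  if e < 3 * φ.length then decide (x = e) else
    if e < 4 * φ.length then decide (b = 1) && mc (cla φ (e - 3 * φ.length)) x else
      decide (b = 0) && mc (cla φ (e - 4 * φ.length)) x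

/-- one direction of the adjacency -/
def ad0 (φ : Fm) (a c : ℕ × ℕ × ℕ) : Bool :=
  (decide (a.1 = 0) && (decide (c.1 = 1) || decide (c.1 = 2))) ||
    (decide (a.1 = 3) && (decide (c.1 = 2) && inc φ c.2.1 c.2.2 a.2.1))

/-- adjacency of labels -/
def ad (φ : Fm) (a c : ℕ × ℕ × ℕ) : Bool := ad0 φ a c || ad0 φ c a

/-- valid labels -/
def ok (φ : Fm) (a : ℕ × ℕ × ℕ) : Bool :=
  (decide (a.1 = 0) && (decide (a.2.1 = 0) && decide (a.2.2 = 0))) ||
  ((decide (a.1 = 1) && decide (a.2.1 = 0)) ||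
  ((decide (a.1 = 2) && (decide (a.2.1 < 3 * φ.length) && decide (a.2.2 < 2))) ||
  (decide (a.1 = 3) && decide (a.2.1 < 5 * φ.length))))

/-- labels of the vertices -/
def vs (φ : Fm) : List (ℕ × ℕ × ℕ) :=
  ((List.range 4) ×ˢ ((List.range (5 * φ.length + 1)) ×ˢ (List.range (3 * φ.length + 3)))).filter
    (fun a => ok φ a)

theorem ad_symm (φ : Fm) (a b : ℕ × ℕ × ℕ) : ad φ a b = ad φ b a := by
  unfold ad
  rw [Bool.or_comm]

theorem ad_irrefl (φ : Fm) (a : ℕ × ℕ × ℕ) : ad φ a a = false := by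
  unfold ad ad0
  rw [Bool.or_self, Bool.eq_false_iff]
  intro h
  simp only [Bool.or_eq_true, Bool.and_eq_true, decide_eq_true_eq] at h
  omega

/-- the graph -/
def gr (φ : Fm) : SimpleGraph (Fin (vs φ).length) := listGraph (vs φ) (ad φ) (ad_symm φ)
  (ad_irrefl φ)

/-- the threshold -/
def K (φ : Fm) : ℕ := 3 * φ.length + 2

/-- the label of a vertex -/
def lb (φ : Fm) (i : Fin (vs φ).length) : ℕ × ℕ × ℕ := (vs φ)[i]

theorem adj_iff (φ : Fm) (i j : Fin (vs φ).length) :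
    (gr φ).Adj i j ↔ ad φ (lb φ i) (lb φ j) = true := Iff.rfl

theorem mem_vs {φ : Fm} {t i k : ℕ} : (t, i, k) ∈ vs φ ↔
    (t < 4 ∧ i < 5 * φ.length + 1 ∧ k < 3 * φ.length + 3) ∧
    ((t = 0 ∧ i = 0 ∧ k = 0) ∨ (t = 1 ∧ i = 0) ∨ (t = 2 ∧ i < 3 * φ.length ∧ k < 2) ∨
      (t = 3 ∧ i < 5 * φ.length)) := by
  unfold vs ok
  rw [List.mem_filter, List.mem_product, List.mem_product, List.mem_range, List.mem_range,
    List.mem_range]
  simp only [Bool.or_eq_true, Bool.and_eq_true, decide_eq_true_eq]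

theorem nodup_vs (φ : Fm) : (vs φ).Nodup :=
  (List.nodup_range.product (List.nodup_range.product List.nodup_range)).filter _

theorem lb_inj {φ : Fm} {i j : Fin (vs φ).length} (h : lb φ i = lb φ j) : i = j :=
  Fin.ext ((List.Nodup.getElem_inj_iff (nodup_vs φ)).1 h)

theorem exists_lb {φ : Fm} {a : ℕ × ℕ × ℕ} (h : a ∈ vs φ) : ∃ i, lb φ i = a := by
  obtain ⟨i, hi, h⟩ := List.getElem_of_mem h
  exact ⟨⟨i, hi⟩, h⟩

theorem lb_mem (φ : Fm) (i : Fin (vs φ).length) : lb φ i ∈ vs φ := List.getElem_mem _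

theorem lb_cases (φ : Fm) (i : Fin (vs φ).length) :
    ((lb φ i).1 = 0 ∧ (lb φ i).2.1 = 0 ∧ (lb φ i).2.2 = 0) ∨
    ((lb φ i).1 = 1 ∧ (lb φ i).2.1 = 0) ∨
    ((lb φ i).1 = 2 ∧ (lb φ i).2.1 < 3 * φ.length ∧ (lb φ i).2.2 < 2) ∨
    ((lb φ i).1 = 3 ∧ (lb φ i).2.1 < 5 * φ.length) := (mem_vs.1 (lb_mem φ i)).2

theorem ad_iff {φ : Fm} {a c : ℕ × ℕ × ℕ} : ad φ a c = true ↔
    ((a.1 = 0 ∧ (c.1 = 1 ∨ c.1 = 2)) ∨ (a.1 = 3 ∧ c.1 = 2 ∧ inc φ c.2.1 c.2.2 a.2.1 = true)) ∨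
    ((c.1 = 0 ∧ (a.1 = 1 ∨ a.1 = 2)) ∨ (c.1 = 3 ∧ a.1 = 2 ∧ inc φ a.2.1 a.2.2 c.2.1 = true)) := by
  unfold ad ad0
  simp only [Bool.or_eq_true, Bool.and_eq_true, decide_eq_true_eq]

/-- The graph is bipartite. -/
theorem bip (φ : Fm) : (gr φ).IsBipartite := by
  refine ⟨SimpleGraph.Coloring.mk (fun v => if (lb φ v).1 = 1 ∨ (lb φ v).1 = 2 then 1 else 0) ?_⟩
  intro u v huv
  rw [adj_iff, ad_iff] at huv
  rcases huv with (⟨h1, h2⟩ | ⟨h1, h2, _⟩) | (⟨h1, h2⟩ | ⟨h1, h2, _⟩) <;>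
    simp [h1, h2]

theorem mc_iff {c : ℕ × ℕ × ℕ} {x : ℕ} : mc c x = true ↔ c.1 = x ∨ c.2.1 = x ∨ c.2.2 = x := by
  unfold mc
  simp only [Bool.or_eq_true, decide_eq_true_eq]

theorem inc_var {φ : Fm} {x b e : ℕ} (h : e < 3 * φ.length) : inc φ x b e = true ↔ x = e := by
  unfold inc
  rw [if_pos h, decide_eq_true_eq]

theorem inc_pos {φ : Fm} {x b j : ℕ} (h : j < φ.length) :
    inc φ x b (3 * φ.length + j) = true ↔ b = 1 ∧ mc (cla φ j) x = true := by
  unfold inc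
  rw [if_neg (by omega), if_pos (by omega), Bool.and_eq_true, decide_eq_true_eq,
    Nat.add_sub_cancel_left]

theorem inc_neg {φ : Fm} {x b j : ℕ} :
    inc φ x b (4 * φ.length + j) = true ↔ b = 0 ∧ mc (cla φ j) x = true := by
  unfold inc
  rw [if_neg (by omega), if_neg (by omega), Bool.and_eq_true, decide_eq_true_eq,
    Nat.add_sub_cancel_left]

theorem cla_mem {φ : Fm} {j : ℕ} (h : j < φ.length) : cla φ j ∈ φ := by
  unfold cla
  rw [List.getD_eq_getElem _ _ h]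
  exact List.getElem_mem _

/-- **Satisfiable formulas.** -/
theorem le_of_sat {φ : Fm} (hs : SmallN φ) (h : NAEN φ) : OmegaUC (gr φ) ≤ (K φ : ℕ) := by
  classical
  obtain ⟨τ, hτ⟩ := h
  rw [le_iff]
  set N := φ.length with hN
  obtain ⟨r, hr⟩ := exists_lb (φ := φ) (a := (0, 0, 0)) (mem_vs.2 ⟨by omega, by omega⟩)
  have hP : ∀ x : Fin (3 * N), ∃ v, lb φ v = (2, x.val, if τ x.val then 1 else 0) := by
    intro x
    have hx := x.isLt
    refine exists_lb (mem_vs.2 ⟨?_, ?_⟩)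
    · split_ifs <;> omega
    · split_ifs <;> omega
  choose g hg using hP
  have hcov : ∀ e < 5 * N, ∃ x : Fin (3 * N), inc φ x.val (if τ x.val then 1 else 0) e = true := by
    intro e he
    rcases Nat.lt_or_ge e (3 * N) with h1 | h1
    · exact ⟨⟨e, h1⟩, (inc_var h1).2 rfl⟩
    rcases Nat.lt_or_ge e (4 * N) with h2 | h2
    · obtain ⟨j, rfl⟩ := Nat.exists_eq_add_of_le h1
      have hj : j < N := by omega
      have hc := hτ _ (cla_mem hj)
      have hsm := hs _ (cla_mem hj)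
      have : τ (cla φ j).1 = true ∨ τ (cla φ j).2.1 = true ∨ τ (cla φ j).2.2 = true := by
        cases h4 : τ (cla φ j).1 <;> cases h5 : τ (cla φ j).2.1 <;>
          cases h6 : τ (cla φ j).2.2 <;> simp_all
      rcases this with h4 | h4 | h4
      · refine ⟨⟨(cla φ j).1, hsm.1⟩, (inc_pos hj).2 ⟨?_, mc_iff.2 (Or.inl rfl)⟩⟩
        simp [h4]
      · refine ⟨⟨(cla φ j).2.1, hsm.2.1⟩, (inc_pos hj).2 ⟨?_, mc_iff.2 (Or.inr (Or.inl rfl))⟩⟩
        simp [h4]
      · refine ⟨⟨(cla φ j).2.2, hsm.2.2⟩, (inc_pos hj).2 ⟨?_, mc_iff.2 (Or.inr (Or.inr rfl))⟩⟩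
        simp [h4]
    · obtain ⟨j, rfl⟩ := Nat.exists_eq_add_of_le h2
      have hj : j < N := by omega
      have hc := hτ _ (cla_mem hj)
      have hsm := hs _ (cla_mem hj)
      have : τ (cla φ j).1 = false ∨ τ (cla φ j).2.1 = false ∨ τ (cla φ j).2.2 = false := by
        cases h4 : τ (cla φ j).1 <;> cases h5 : τ (cla φ j).2.1 <;>
          cases h6 : τ (cla φ j).2.2 <;> simp_all
      rcases this with h4 | h4 | h4
      · refine ⟨⟨(cla φ j).1, hsm.1⟩, inc_neg.2 ⟨?_, mc_iff.2 (Or.inl rfl)⟩⟩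
        simp [h4]
      · refine ⟨⟨(cla φ j).2.1, hsm.2.1⟩, inc_neg.2 ⟨?_, mc_iff.2 (Or.inr (Or.inl rfl))⟩⟩
        simp [h4]
      · refine ⟨⟨(cla φ j).2.2, hsm.2.2⟩, inc_neg.2 ⟨?_, mc_iff.2 (Or.inr (Or.inr rfl))⟩⟩
        simp [h4]
  have hrn : r ∉ Finset.univ.image g := by
    rw [Finset.mem_image]
    rintro ⟨x, _, hx⟩
    have := hg x
    rw [hx, hr] at this
    simp at this
  refine ⟨fun v => if (lb φ v).1 = 0 then 2 else if (lb φ v).1 = 2 then 1 else 0,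
    insert r (Finset.univ.image g), ?_, ⟨?_, ?_⟩, ?_⟩
  · intro u v huv
    rw [adj_iff, ad_iff] at huv
    rcases huv with (⟨h1, h2 | h2⟩ | ⟨h1, h2, _⟩) | (⟨h1, h2 | h2⟩ | ⟨h1, h2, _⟩) <;>
      simp [h1, h2]
  · intro d hd
    rw [Finset.mem_insert, Finset.mem_image] at hd
    rcases hd with rfl | ⟨x, _, rfl⟩
    · simp [hr]
    · simp [hg x]
  · intro v _
    rcases lb_cases φ v with h1 | h1 | h1 | h1
    · exfalso
      have : v = r := lb_inj (by
        rw [hr]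
        exact Prod.ext h1.1 (Prod.ext h1.2.1 h1.2.2))
      simp_all
    · refine ⟨r, Finset.mem_insert_self _ _, ?_, ?_⟩
      · rw [adj_iff, ad_iff, hr]
        exact Or.inr (Or.inl ⟨rfl, Or.inl h1.1⟩)
      · simp [hr, h1.1]
    · refine ⟨r, Finset.mem_insert_self _ _, ?_, ?_⟩
      · rw [adj_iff, ad_iff, hr]
        exact Or.inr (Or.inl ⟨rfl, Or.inr h1.1⟩)
      · simp [hr, h1.1]
    · obtain ⟨x, hx⟩ := hcov _ h1.2
      refine ⟨g x, Finset.mem_insert_of_mem (Finset.mem_image_of_mem _ (Finset.mem_univ _)), ?_, ?_⟩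
      · rw [adj_iff, ad_iff, hg x]
        exact Or.inl (Or.inr ⟨h1.1, rfl, hx⟩)
      · simp [hg x, h1.1]
  · rw [Finset.sum_insert hrn]
    have h1 : ∑ v ∈ Finset.univ.image g, (if (lb φ v).1 = 0 then 2 else
        if (lb φ v).1 = 2 then 1 else 0) ≤ ∑ v ∈ Finset.univ.image g, 1 := by
      refine Finset.sum_le_sum fun v hv => ?_
      rw [Finset.mem_image] at hv
      obtain ⟨x, _, rfl⟩ := hv
      simp [hg x]
    have h2 : (Finset.univ.image g).card ≤ 3 * N := by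
      refine Finset.card_image_le.trans ?_
      rw [Finset.card_univ, Fintype.card_fin]
    rw [Finset.sum_const, smul_eq_mul, mul_one] at h1
    simp only [hr, if_true]
    unfold K
    omega

/-- **Graphs with a small value.** -/
theorem sat_of_le {φ : Fm} (h : OmegaUC (gr φ) ≤ (K φ : ℕ)) : NAEN φ := by
  classical
  rw [le_iff] at h
  obtain ⟨c, D, hc, ⟨hD0, hD⟩, hw⟩ := h
  unfold K at hw
  set N := φ.length with hN
  have hcard : D.card ≤ 3 * N + 2 := by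
    refine le_trans ?_ hw
    rw [Finset.card_eq_sum_ones]
    exact Finset.sum_le_sum fun d hd => Nat.one_le_iff_ne_zero.2 (hD0 d hd)
  have hmiss : ∀ t i, (∀ k < 3 * N + 3, (t, i, k) ∈ vs φ) →
      ∃ v, v ∉ D ∧ (lb φ v).1 = t ∧ (lb φ v).2.1 = i := by
    intro t i hk
    by_contra hcon
    push Not at hcon
    have hP : ∀ k : Fin (3 * N + 3), ∃ v, lb φ v = (t, i, k.val) := fun k =>
      exists_lb (hk k k.isLt)
    choose g hg using hP
    have hinj : Function.Injective g := by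
      intro a b hab
      have h1 := hg a
      rw [hab, hg b] at h1
      simp only [Prod.mk.injEq, true_and] at h1
      exact Fin.ext h1.symm
    have hsub : Finset.univ.image g ⊆ D := by
      intro v hv
      rw [Finset.mem_image] at hv
      obtain ⟨k, _, rfl⟩ := hv
      by_contra hvD
      exact hcon _ hvD (by rw [hg k]) (by rw [hg k])
    have h1 := Finset.card_le_card hsub
    rw [Finset.card_image_of_injective _ hinj, Finset.card_univ, Fintype.card_fin] at h1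
    omega
  obtain ⟨r, hrD, hr⟩ : ∃ r ∈ D, (lb φ r).1 = 0 := by
    obtain ⟨p, hp, hp1, hp2⟩ := hmiss 1 0 (fun k hk => mem_vs.2 ⟨by omega, by omega⟩)
    obtain ⟨d, hd, hadj, _⟩ := hD p hp
    refine ⟨d, hd, ?_⟩
    rw [adj_iff, ad_iff, hp1] at hadj
    rcases hadj with (⟨h1, _⟩ | ⟨h1, _⟩) | (⟨h1, _⟩ | ⟨_, h1, _⟩) <;> omega
  have hcov : ∀ e < 5 * N, ∃ d ∈ D, (lb φ d).1 = 2 ∧ inc φ (lb φ d).2.1 (lb φ d).2.2 e = true := by
    intro e he
    obtain ⟨p, hp, hp1, hp2⟩ := hmiss 3 e (fun k hk => mem_vs.2 ⟨by omega, by omega⟩)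
    obtain ⟨d, hd, hadj, _⟩ := hD p hp
    refine ⟨d, hd, ?_⟩
    rw [adj_iff, ad_iff, hp1, hp2] at hadj
    rcases hadj with (⟨h1, _⟩ | ⟨_, h1, h2⟩) | (⟨_, h1⟩ | ⟨_, h1, _⟩)
    · omega
    · exact ⟨h1, h2⟩
    · omega
    · omega
  set S := D.filter (fun d => (lb φ d).1 = 2) with hS
  have hScard : S.card ≤ 3 * N := by
    have hrS : r ∉ S := by
      rw [hS, Finset.mem_filter]
      rintro ⟨_, h1⟩
      omega
    have hsub : insert r S ⊆ D := by
      intro v hv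
      rw [Finset.mem_insert] at hv
      rcases hv with rfl | hv
      · exact hrD
      · exact (Finset.mem_filter.1 hv).1
    have h1 : ∑ d ∈ insert r S, c d ≤ 3 * N + 2 := (Finset.sum_le_sum_of_subset hsub).trans hw
    rw [Finset.sum_insert hrS] at h1
    have hr0 := hD0 r hrD
    by_cases hr1 : c r = 1
    · have h2 : ∑ d ∈ S, 2 ≤ ∑ d ∈ S, c d := by
        refine Finset.sum_le_sum fun d hd => ?_
        obtain ⟨hd1, hd2⟩ := Finset.mem_filter.1 hd
        have h3 := hD0 d hd1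
        have h4 := hc r d (by
          rw [adj_iff, ad_iff]
          exact Or.inl (Or.inl ⟨hr, Or.inr hd2⟩))
        omega
      rw [Finset.sum_const, smul_eq_mul] at h2
      omega
    · have h2 : ∑ d ∈ S, 1 ≤ ∑ d ∈ S, c d := by
        refine Finset.sum_le_sum fun d hd => ?_
        have h3 := hD0 d (Finset.mem_filter.1 hd).1
        omega
      rw [Finset.sum_const, smul_eq_mul] at h2
      omega
  have hinj : Set.InjOn (fun v => (lb φ v).2.1) (S : Set (Fin (vs φ).length)) := by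
    refine Finset.injOn_of_card_image_eq (le_antisymm Finset.card_image_le ?_)
    refine hScard.trans ?_
    have hsub : Finset.range (3 * N) ⊆ S.image (fun v => (lb φ v).2.1) := by
      intro x hx
      rw [Finset.mem_range] at hx
      obtain ⟨d, hd, hd1, hd2⟩ := hcov x (by omega)
      rw [Finset.mem_image]
      exact ⟨d, Finset.mem_filter.2 ⟨hd, hd1⟩, (inc_var hx).1 hd2⟩
    have := Finset.card_le_card hsub
    rwa [Finset.card_range] at this
  refine ⟨fun x => decide (∃ d ∈ D, lb φ d = (2, x, 1)), ?_⟩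
  intro t ht
  obtain ⟨j, hj, hjt⟩ := List.getElem_of_mem ht
  have hcl : cla φ j = t := by
    unfold cla
    rw [List.getD_eq_getElem _ _ hj]
    exact hjt
  have hpos : ∃ x, (t.1 = x ∨ t.2.1 = x ∨ t.2.2 = x) ∧ ∃ d ∈ D, lb φ d = (2, x, 1) := by
    obtain ⟨d, hd, hd1, hd2⟩ := hcov (3 * N + j) (by omega)
    rw [inc_pos hj, hcl, mc_iff] at hd2
    exact ⟨_, hd2.2, d, hd, Prod.ext hd1 (Prod.ext rfl hd2.1)⟩
  have hneg : ∃ x, (t.1 = x ∨ t.2.1 = x ∨ t.2.2 = x) ∧ ¬ ∃ d ∈ D, lb φ d = (2, x, 1) := by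
    obtain ⟨d, hd, hd1, hd2⟩ := hcov (4 * N + j) (by omega)
    rw [inc_neg, hcl, mc_iff] at hd2
    refine ⟨_, hd2.2, ?_⟩
    rintro ⟨d', hd', hd''⟩
    have h1 : d = d' := hinj (Finset.mem_coe.2 (Finset.mem_filter.2 ⟨hd, hd1⟩))
      (Finset.mem_coe.2 (Finset.mem_filter.2 ⟨hd', by rw [hd'']⟩)) (by simp only [hd''])
    rw [h1, hd''] at hd2
    simp at hd2
  obtain ⟨x, hx, hx'⟩ := hpos
  obtain ⟨y, hy, hy'⟩ := hneg
  rintro ⟨h1, h2⟩
  simp only at h1 h2
  have ex : decide (∃ d ∈ D, lb φ d = (2, x, 1)) = true := decide_eq_true hx'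
  have ey : decide (∃ d ∈ D, lb φ d = (2, y, 1)) = false := decide_eq_false hy'
  rcases hx with rfl | rfl | rfl <;> rcases hy with rfl | rfl | rfl <;> simp_all

end Pool.Agent.X65.UC
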