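import Pool.Agent.X65.MS.Tree

/-!
# Up-color domination in trees: dynamic programme

A tree is given by a list of pairs (child, parent), the newest vertex first. The state of a vertex
is `2` when it is in the set, and else `1` or `0`, when it is or is not dominated by a neighbour
which is still to be merged; and the color of the vertex.
-/

set_option autoImplicit false

namespace Pool.Agent.X65.UC

open Pool.Agent.X65.RW (minv minv_le minv_mem)
open Pool.Agent.X65.MS (Tb look keys Bl look_map look_map_not mem_keys sum_upd minv_le_bound)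

/-- the state of the parent (state `x`, color `c`) with a child (state `y`, color `d`) -/
def upx (x c y d : ℕ) : ℕ := if x = 0 ∧ y = 2 ∧ c < d then 1 else x

/-- the state of a child with color `d`, not in the set, of a parent with state `x`, color `c` -/
def lox (x c d : ℕ) : ℕ := if x = 2 ∧ d < c then 1 else 0

/-- the possible values when the child `v` is merged into `p` -/
def opts (M : ℕ) (t : Tb) (v p x c : ℕ) : List ℕ :=
  (((List.range M) ×ˢ (List.range M)).filter fun y =>
    (decide (y.1 = 2) || decide (y.1 = lox x c y.2)) && !decide (y.2 = c)).map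
    fun y => look M t (p, upx x c y.1 y.2, c) + look M t (v, y.1, y.2)

/-- merging a child -/
def nxt (n M : ℕ) (t : Tb) (e : ℕ × ℕ) : Tb :=
  (keys n M).map fun q => (q, if q.1 = e.2 then minv M (opts M t e.1 e.2 q.2.1 q.2.2)
    else look M t q)

/-- values of the first table -/
def iv (M : ℕ) (q : ℕ × ℕ × ℕ) : ℕ :=
  if q.2.1 = 2 then (if q.2.2 = 0 then M else q.2.2) else if q.2.1 = 1 then 0 else M

/-- the first table -/
def ini (n M : ℕ) : Tb := (keys n M).map fun q => (q, iv M q)

/-- the last table -/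
def fin (n M : ℕ) (es : List (ℕ × ℕ)) : Tb := es.foldl (nxt n M) (ini n M)

/-- the optimum -/
def ans (n M : ℕ) (es : List (ℕ × ℕ)) : ℕ :=
  minv M (((List.range M).map fun c => look M (fin n M es) (0, 0, c)) ++
    ((List.range M).map fun c => look M (fin n M es) (0, 2, c)))

/-- `u` is dominated by a neighbour -/
def Dm (S : ℕ → Bool) (C : ℕ → ℕ) (es : List (ℕ × ℕ)) (u : ℕ) : Prop :=
  ∃ e ∈ es, (e.1 = u ∧ S e.2 = true ∧ C u < C e.2) ∨ (e.2 = u ∧ S e.1 = true ∧ C u < C e.1)

open Classical in
/-- the state of `u` -/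
noncomputable def X (S : ℕ → Bool) (C : ℕ → ℕ) (es : List (ℕ × ℕ)) (u : ℕ) : ℕ :=
  if S u = true then 2 else if Dm S C es u then 1 else 0

theorem mem_opts {M v p x c a : ℕ} {t : Tb} : a ∈ opts M t v p x c ↔
    ∃ y d, y < M ∧ d < M ∧ (y = 2 ∨ y = lox x c d) ∧ d ≠ c ∧
      look M t (p, upx x c y d, c) + look M t (v, y, d) = a := by
  unfold opts
  rw [List.mem_map]
  constructor
  · rintro ⟨⟨l, d⟩, h1, h2⟩
    rw [List.mem_filter, List.mem_product, List.mem_range, List.mem_range, Bool.and_eq_true,
      Bool.or_eq_true, decide_eq_true_eq, decide_eq_true_eq, Bool.not_eq_true',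
      decide_eq_false_iff_not] at h1
    exact ⟨l, d, h1.1.1, h1.1.2, h1.2.1, h1.2.2, h2⟩
  · rintro ⟨l, d, h1, h2, h3, h4, h5⟩
    refine ⟨(l, d), ?_, h5⟩
    rw [List.mem_filter, List.mem_product, List.mem_range, List.mem_range, Bool.and_eq_true,
      Bool.or_eq_true, decide_eq_true_eq, decide_eq_true_eq, Bool.not_eq_true',
      decide_eq_false_iff_not]
    exact ⟨⟨h1, h2⟩, h3, h4⟩

theorem X_lt (S : ℕ → Bool) (C : ℕ → ℕ) (es : List (ℕ × ℕ)) (u : ℕ) : X S C es u < 3 := by
  unfold X
  split_ifs <;> omega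

theorem X_two {S : ℕ → Bool} {C : ℕ → ℕ} {es : List (ℕ × ℕ)} {u : ℕ} :
    X S C es u = 2 ↔ S u = true := by
  unfold X
  split_ifs with h1 h2 <;> simp_all

theorem X_one {S : ℕ → Bool} {C : ℕ → ℕ} {es : List (ℕ × ℕ)} {u : ℕ} (h1 : ¬ S u = true)
    (h2 : Dm S C es u) : X S C es u = 1 := by
  unfold X
  rw [if_neg h1, if_pos h2]

theorem X_zero {S : ℕ → Bool} {C : ℕ → ℕ} {es : List (ℕ × ℕ)} {u : ℕ} (h1 : ¬ S u = true)
    (h2 : ¬ Dm S C es u) : X S C es u = 0 := by
  unfold X
  rw [if_neg h1, if_neg h2]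

theorem X_ext {S S' : ℕ → Bool} {C C' : ℕ → ℕ} {es es' : List (ℕ × ℕ)} {u : ℕ} (h1 : S' u = S u)
    (h2 : Dm S' C' es' u ↔ Dm S C es u) : X S' C' es' u = X S C es u := by
  by_cases h3 : S u = true
  · rw [X_two.2 h3, X_two.2 (h1.trans h3)]
  · by_cases h4 : Dm S C es u
    · rw [X_one h3 h4, X_one (by rw [h1]; exact h3) (h2.2 h4)]
    · rw [X_zero h3 h4, X_zero (by rw [h1]; exact h3) (fun h => h4 (h2.1 h))]

section

variable {n : ℕ} {e : ℕ × ℕ} {es : List (ℕ × ℕ)}

theorem Dm_new (h : Bl n (e :: es)) (S : ℕ → Bool) (C : ℕ → ℕ) :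
    Dm S C (e :: es) e.1 ↔ S e.2 = true ∧ C e.1 < C e.2 := by
  have h1 := h.2.2.1
  constructor
  · rintro ⟨f, hf, h2⟩
    rcases List.mem_cons.1 hf with h3 | h3
    · subst h3
      rcases h2 with h2 | h2
      · exact h2.2
      · exfalso
        rw [← h2.1] at h1
        exact h1 h.2.2.2
    · exfalso
      rcases h2 with h2 | h2
      · rw [← h2.1] at h1
        exact h1 (List.mem_cons_of_mem _ (List.mem_map.2 ⟨f, h3, rfl⟩))
      · rw [← h2.1] at h1
        exact h1 (Bl.par h.1 f h3)
  · intro h2
    exact ⟨e, List.mem_cons_self, Or.inl ⟨rfl, h2⟩⟩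

theorem X_new (h : Bl n (e :: es)) (S : ℕ → Bool) (C : ℕ → ℕ) :
    X S C (e :: es) e.1 = 2 ∨ X S C (e :: es) e.1 = lox (X S C es e.2) (C e.2) (C e.1) := by
  by_cases h1 : S e.1 = true
  · exact Or.inl (X_two.2 h1)
  · right
    unfold lox
    simp only [X_two]
    by_cases h2 : Dm S C (e :: es) e.1
    · rw [X_one h1 h2, if_pos ((Dm_new h S C).1 h2)]
    · rw [X_zero h1 h2, if_neg (fun h3 => h2 ((Dm_new h S C).2 h3))]

theorem X_par (h : Bl n (e :: es)) (S : ℕ → Bool) (C : ℕ → ℕ) :
    X S C (e :: es) e.2 = upx (X S C es e.2) (C e.2) (X S C (e :: es) e.1) (C e.1) := by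
  classical
  unfold upx
  simp only [X_two]
  by_cases h1 : S e.2 = true
  · rw [X_two.2 h1, X_two.2 h1]
    simp
  · have h4 : e.1 ≠ e.2 := by
      intro h5
      have := h.2.2.1
      rw [h5] at this
      exact this h.2.2.2
    have h2 : Dm S C (e :: es) e.2 ↔ Dm S C es e.2 ∨ (S e.1 = true ∧ C e.2 < C e.1) := by
      unfold Dm
      constructor
      · rintro ⟨f, hf, h2⟩
        rcases List.mem_cons.1 hf with h3 | h3
        · subst h3
          rcases h2 with h2 | h2
          · exact absurd h2.1 h4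
          · exact Or.inr h2.2
        · exact Or.inl ⟨f, h3, h2⟩
      · rintro (⟨f, hf, h2⟩ | h2)
        · exact ⟨f, List.mem_cons_of_mem _ hf, h2⟩
        · exact ⟨e, List.mem_cons_self, Or.inr ⟨rfl, h2⟩⟩
    by_cases h3 : Dm S C es e.2
    · rw [X_one h1 h3, X_one h1 (h2.2 (Or.inl h3))]
      simp
    · by_cases h5 : S e.1 = true ∧ C e.2 < C e.1
      · rw [X_zero h1 h3, X_one h1 (h2.2 (Or.inr h5)), if_pos ⟨rfl, h5⟩]
      · rw [X_zero h1 h3, X_zero h1 (fun h6 => by
          rcases h2.1 h6 with h6 | h6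
          · exact h3 h6
          · exact h5 h6), if_neg (fun h6 => h5 h6.2)]

theorem X_old (S : ℕ → Bool) (C : ℕ → ℕ) {u : ℕ} (h1 : e.1 ≠ u) (h2 : e.2 ≠ u) :
    X S C (e :: es) u = X S C es u := by
  have h : Dm S C (e :: es) u ↔ Dm S C es u := by
    unfold Dm
    constructor
    · rintro ⟨f, hf, h3⟩
      rcases List.mem_cons.1 hf with h4 | h4
      · subst h4
        rcases h3 with h3 | h3
        · exact absurd h3.1 h1
        · exact absurd h3.1 h2
      · exact ⟨f, h4, h3⟩
    · rintro ⟨f, hf, h3⟩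
      exact ⟨f, List.mem_cons_of_mem _ hf, h3⟩
  exact X_ext rfl h

theorem X_congr (h : Bl n es) {S S' : ℕ → Bool} {C C' : ℕ → ℕ}
    (hS : ∀ u ∈ 0 :: es.map Prod.fst, S' u = S u) (hC : ∀ u ∈ 0 :: es.map Prod.fst, C' u = C u) :
    ∀ u ∈ 0 :: es.map Prod.fst, X S' C' es u = X S C es u := by
  intro u hu
  have hD : Dm S' C' es u ↔ Dm S C es u := by
    unfold Dm
    refine exists_congr fun f => and_congr_right fun hf => ?_
    have h1 : f.1 ∈ 0 :: es.map Prod.fst := List.mem_cons_of_mem _ (List.mem_map.2 ⟨f, hf, rfl⟩)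
    have h2 := Bl.par h f hf
    rw [hS _ h1, hS _ h2, hC _ h1, hC _ h2, hC _ hu]
  exact X_ext (hS u hu) hD

end

theorem fold_le {n M : ℕ} (hn : 0 < n) (hM : 3 ≤ M) (S : ℕ → Bool) (C : ℕ → ℕ) :
    ∀ (es : List (ℕ × ℕ)) (t : Tb), Bl n es → (∀ e ∈ es, C e.1 ≠ C e.2) →
      (∀ u ∈ 0 :: es.map Prod.fst, C u < M) →
      look M (es.foldl (nxt n M) t) (0, X S C [] 0, C 0) ≤
        ((0 :: es.map Prod.fst).map fun u => look M t (u, X S C es u, C u)).sum
  | [], t, _, _, _ => by simp
  | e :: es, t, hb, hc, hm => by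
    have hsub : ∀ u ∈ 0 :: es.map Prod.fst, u ∈ 0 :: (e :: es).map Prod.fst := by
      intro u hu
      rw [List.mem_cons] at hu
      rw [List.map_cons, List.mem_cons, List.mem_cons]
      rcases hu with h | h
      · exact Or.inl h
      · exact Or.inr (Or.inr h)
    have ih := fold_le hn hM S C es (nxt n M t e) hb.1
      (fun e' he' => hc e' (List.mem_cons_of_mem _ he')) (fun u hu => hm u (hsub u hu))
    rw [List.foldl_cons]
    refine ih.trans ?_
    have hv := hm e.1 (by simp)
    have hce := hc e List.mem_cons_self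
    have hloo : ∀ u ∈ 0 :: es.map Prod.fst, look M (nxt n M t e) (u, X S C es u, C u) =
        if u = e.2 then minv M (opts M t e.1 e.2 (X S C es u) (C u))
          else look M t (u, X S C es u, C u) := by
      intro u hu
      have h1 := hm u (hsub u hu)
      have h2 : (u, X S C es u, C u) ∈ keys n M :=
        mem_keys.2 ⟨Bl.lt hn hb.1 u hu, (X_lt S C es u).trans_le hM, h1⟩
      unfold nxt
      rw [look_map (g := fun q => if q.1 = e.2 then minv M (opts M t e.1 e.2 q.2.1 q.2.2)
        else look M t q) M h2]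
    have hne : ∀ u ∈ 0 :: es.map Prod.fst, e.1 ≠ u := by
      rintro u hu rfl
      exact hb.2.2.1 hu
    have hsum := sum_upd (Bl.nodup hb.1) hb.2.2.2
      (f := fun u => look M t (u, X S C (e :: es) u, C u))
      (f' := fun u => look M (nxt n M t e) (u, X S C es u, C u)) (by
        intro u hu hup
        rw [hloo u hu, if_neg hup, X_old S C (hne u hu) (fun h => hup h.symm)])
    have hp : look M (nxt n M t e) (e.2, X S C es e.2, C e.2) ≤
        look M t (e.2, X S C (e :: es) e.2, C e.2) +
          look M t (e.1, X S C (e :: es) e.1, C e.1) := by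
      rw [hloo _ hb.2.2.2, if_pos rfl, X_par hb]
      exact minv_le (mem_opts.2 ⟨X S C (e :: es) e.1, C e.1, (X_lt _ _ _ _).trans_le hM, hv,
        X_new hb S C, hce, rfl⟩)
    simp only [List.map_cons, List.sum_cons] at hsum ⊢
    omega

theorem exists_fold {n M : ℕ} (x0 c0 : ℕ) (hx0 : x0 = 0 ∨ x0 = 2) :
    ∀ (es : List (ℕ × ℕ)) (t : Tb), Bl n es → look M (es.foldl (nxt n M) t) (0, x0, c0) < M →
      ∃ (S : ℕ → Bool) (C : ℕ → ℕ), C 0 = c0 ∧ (S 0 = true ↔ x0 = 2) ∧
        (∀ e ∈ es, C e.1 ≠ C e.2) ∧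
        ((0 :: es.map Prod.fst).map fun u => look M t (u, X S C es u, C u)).sum =
        look M (es.foldl (nxt n M) t) (0, x0, c0)
  | [], t, _, _ => by
    refine ⟨fun _ => decide (x0 = 2), fun _ => c0, rfl, by simp, by simp, ?_⟩
    have h : X (fun _ => decide (x0 = 2)) (fun _ => c0) [] 0 = x0 := by
      unfold X Dm
      rcases hx0 with h | h <;> simp [h]
    simp [h]
  | e :: es, t, hb, hlt => by
    rw [List.foldl_cons] at hlt ⊢
    obtain ⟨S, C, h1, h0, h2, h3⟩ := exists_fold x0 c0 hx0 es (nxt n M t e) hb.1 hlt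
    have hpm := hb.2.2.2
    have hvm := hb.2.2.1
    have hple : look M (nxt n M t e) (e.2, X S C es e.2, C e.2) < M := by
      have h4 : look M (nxt n M t e) (e.2, X S C es e.2, C e.2) ≤
          ((0 :: es.map Prod.fst).map fun u =>
            look M (nxt n M t e) (u, X S C es u, C u)).sum :=
        Pool.Agent.X65.RW.mem_le_sum (List.mem_map.2 ⟨e.2, hpm, rfl⟩)
      omega
    have hkey : (e.2, X S C es e.2, C e.2) ∈ keys n M := by
      by_contra hk
      unfold nxt at hple
      rw [look_map_not M hk] at hple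
      omega
    have hval : look M (nxt n M t e) (e.2, X S C es e.2, C e.2) =
        minv M (opts M t e.1 e.2 (X S C es e.2) (C e.2)) := by
      unfold nxt
      rw [look_map (g := fun q => if q.1 = e.2 then minv M (opts M t e.1 e.2 q.2.1 q.2.2)
        else look M t q) M hkey]
      exact if_pos rfl
    rcases minv_mem M (opts M t e.1 e.2 (X S C es e.2) (C e.2)) with hm | hm
    · obtain ⟨y, d, g1, g2, g3, g4, g5⟩ := mem_opts.1 hm
      have hne : ∀ u ∈ 0 :: es.map Prod.fst, u ≠ e.1 := by
        rintro u hu rfl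
        exact hvm hu
      set S' := Function.update S e.1 (decide (y = 2)) with hS'
      set C' := Function.update C e.1 d with hC'
      have hS : ∀ u ∈ 0 :: es.map Prod.fst, S' u = S u := fun u hu =>
        Function.update_of_ne (hne u hu) _ _
      have hC : ∀ u ∈ 0 :: es.map Prod.fst, C' u = C u := fun u hu =>
        Function.update_of_ne (hne u hu) _ _
      have hch : ∀ e' ∈ es, e'.1 ∈ 0 :: es.map Prod.fst := fun e' he' =>
        List.mem_cons_of_mem _ (List.mem_map.2 ⟨e', he', rfl⟩)
      have hX := X_congr hb.1 hS hC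
      have hCv : C' e.1 = d := Function.update_self _ _ _
      have hSv : S' e.1 = decide (y = 2) := Function.update_self _ _ _
      have hXv : X S' C' (e :: es) e.1 = y := by
        by_cases hy : y = 2
        · rw [hy]
          exact X_two.2 (by rw [hSv, hy]; rfl)
        · rcases X_new hb S' C' with h | h
          · rw [X_two, hSv, decide_eq_true_eq] at h
            exact absurd h hy
          · rw [h, hX _ hpm, hC _ hpm, hCv]
            rcases g3 with g3 | g3
            · exact absurd g3 hy
            · exact g3.symm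
      have hXp : X S' C' (e :: es) e.2 = upx (X S C es e.2) (C e.2) y d := by
        rw [X_par hb, hXv, hX _ hpm, hC _ hpm, hCv]
      refine ⟨S', C', ?_, ?_, ?_, ?_⟩
      · rw [hC 0 List.mem_cons_self, h1]
      · rw [hS 0 List.mem_cons_self, h0]
      · intro e' he'
        rcases List.mem_cons.1 he' with he | he
        · rw [he, hCv, hC _ hpm]
          exact g4
        · rw [hC _ (hch e' he), hC _ (Bl.par hb.1 e' he)]
          exact h2 e' he
      · have hsum := sum_upd (Bl.nodup hb.1) hpm
          (f := fun u => look M t (u, X S' C' (e :: es) u, C' u))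
          (f' := fun u => look M (nxt n M t e) (u, X S C es u, C u)) (by
            intro u hu hup
            rw [hC u hu, X_old S' C' (fun h => hne u hu h.symm) (fun h => hup h.symm), hX u hu]
            by_cases hk : (u, X S C es u, C u) ∈ keys n M
            · unfold nxt
              rw [look_map (g := fun q => if q.1 = e.2 then minv M (opts M t e.1 e.2 q.2.1 q.2.2)
                else look M t q) M hk]
              simp only
              rw [if_neg hup]
            · exfalso
              have h4 : look M (nxt n M t e) (u, X S C es u, C u) ≤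
                  ((0 :: es.map Prod.fst).map fun u =>
                    look M (nxt n M t e) (u, X S C es u, C u)).sum :=
                Pool.Agent.X65.RW.mem_le_sum (List.mem_map.2 ⟨u, hu, rfl⟩)
              have h5 : look M (nxt n M t e) (u, X S C es u, C u) = M := by
                unfold nxt
                exact look_map_not M hk
              omega)
        rw [hval, ← g5, hC _ hpm, hXp] at hsum
        rw [← h3]
        simp only [List.map_cons, List.sum_cons] at hsum ⊢
        rw [hXv, hCv]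
        omega
    · exfalso
      omega

/-- all constraints -/
def Good (es : List (ℕ × ℕ)) (S : ℕ → Bool) (C : ℕ → ℕ) : Prop :=
  (∀ e ∈ es, C e.1 ≠ C e.2) ∧ ∀ u ∈ 0 :: es.map Prod.fst,
    (S u = true ∧ C u ≠ 0) ∨ (S u = false ∧ Dm S C es u)

/-- the weight -/
def wgt (es : List (ℕ × ℕ)) (S : ℕ → Bool) (C : ℕ → ℕ) : ℕ :=
  ((0 :: es.map Prod.fst).map fun u => if S u = true then C u else 0).sum

theorem Good.le {n : ℕ} {es : List (ℕ × ℕ)} (hb : Bl n es) {S : ℕ → Bool} {C : ℕ → ℕ}
    (hg : Good es S C) : ∀ u ∈ 0 :: es.map Prod.fst, C u ≤ wgt es S C := by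
  have h1 : ∀ u ∈ 0 :: es.map Prod.fst, S u = true → C u ≤ wgt es S C := by
    intro u hu hs
    have h2 : (if S u = true then C u else 0) ≤ wgt es S C :=
      Pool.Agent.X65.RW.mem_le_sum (List.mem_map.2 ⟨u, hu, rfl⟩)
    rwa [if_pos hs] at h2
  intro u hu
  rcases hg.2 u hu with h | ⟨_, f, hf, h | h⟩
  · exact h1 u hu h.1
  · exact h.2.2.le.trans (h1 _ (Bl.par hb f hf) h.2.1)
  · exact h.2.2.le.trans (h1 _ (List.mem_cons_of_mem _ (List.mem_map.2 ⟨f, hf, rfl⟩)) h.2.1)

theorem ans_le {n M : ℕ} (hn : 0 < n) (hM3 : 3 ≤ M) {es : List (ℕ × ℕ)} (hb : Bl n es)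
    {S : ℕ → Bool} {C : ℕ → ℕ} (hg : Good es S C) : ans n M es ≤ wgt es S C := by
  by_cases hM : wgt es S C < M
  · have hX : ∀ u ∈ 0 :: es.map Prod.fst, C u < M := fun u hu => (hg.le hb u hu).trans_lt hM
    have h1 := fold_le (M := M) hn hM3 S C es (ini n M) hb hg.1 hX
    unfold ans
    have h0 : look M (fin n M es) (0, X S C [] 0, C 0) ∈
        ((List.range M).map fun c => look M (fin n M es) (0, 0, c)) ++
        ((List.range M).map fun c => look M (fin n M es) (0, 2, c)) := by
      rw [List.mem_append, List.mem_map, List.mem_map]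
      have h00 : X S C [] 0 = 0 ∨ X S C [] 0 = 2 := by
        unfold X Dm
        split_ifs with h1 h2
        · exact Or.inr rfl
        · simp at h2
        · exact Or.inl rfl
      have hC0 := List.mem_range.2 (hX 0 List.mem_cons_self)
      rcases h00 with h | h
      · exact Or.inl ⟨C 0, hC0, by rw [h]⟩
      · exact Or.inr ⟨C 0, hC0, by rw [h]⟩
    refine (minv_le h0).trans (h1.trans (le_of_eq ?_))
    unfold wgt
    congr 1
    refine List.map_congr_left fun u hu => ?_
    unfold ini
    rw [look_map (g := iv M) M (mem_keys.2 ⟨Bl.lt hn hb u hu, (X_lt _ _ _ _).trans_le hM3,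
      hX u hu⟩)]
    unfold iv X
    rcases hg.2 u hu with h | h
    · simp [h.1, h.2]
    · simp [h.1, h.2]
  · exact (minv_le_bound _ _).trans (not_lt.1 hM)

theorem exists_ans {n M : ℕ} {es : List (ℕ × ℕ)} (hb : Bl n es) (h : ans n M es < M) :
    ∃ (S : ℕ → Bool) (C : ℕ → ℕ), Good es S C ∧ wgt es S C = ans n M es := by
  have hm : ans n M es ∈ ((List.range M).map fun c => look M (fin n M es) (0, 0, c)) ++
        ((List.range M).map fun c => look M (fin n M es) (0, 2, c)) := by
    rcases minv_mem M (((List.range M).map fun c => look M (fin n M es) (0, 0, c)) ++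
        ((List.range M).map fun c => look M (fin n M es) (0, 2, c))) with h1 | h1
    · exact h1
    · unfold ans at h
      omega
  obtain ⟨x0, c, hx0, hc⟩ : ∃ x0 c, (x0 = 0 ∨ x0 = 2) ∧
      look M (fin n M es) (0, x0, c) = ans n M es := by
    rw [List.mem_append, List.mem_map, List.mem_map] at hm
    rcases hm with ⟨c, _, hc⟩ | ⟨c, _, hc⟩
    · exact ⟨0, c, Or.inl rfl, hc⟩
    · exact ⟨2, c, Or.inr rfl, hc⟩
  unfold fin at hc
  rw [← hc] at h
  obtain ⟨S, C, _, _, h2, h3⟩ := exists_fold x0 c hx0 es (ini n M) hb h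
  rw [hc] at h3 h
  have hz : ∀ u ∈ 0 :: es.map Prod.fst, ((S u = true ∧ C u ≠ 0) ∨ (S u = false ∧ Dm S C es u)) ∧
      look M (ini n M) (u, X S C es u, C u) = if S u = true then C u else 0 := by
    intro u hu
    have h4 : look M (ini n M) (u, X S C es u, C u) ≤ ((0 :: es.map Prod.fst).map fun u =>
        look M (ini n M) (u, X S C es u, C u)).sum :=
      Pool.Agent.X65.RW.mem_le_sum (List.mem_map.2 ⟨u, hu, rfl⟩)
    have h5 : look M (ini n M) (u, X S C es u, C u) < M := by omega
    by_cases hk : (u, X S C es u, C u) ∈ keys n M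
    · unfold ini at h5 ⊢
      rw [look_map (g := iv M) M hk] at h5 ⊢
      unfold iv at h5 ⊢
      simp only at h5 ⊢
      cases hs : S u with
      | true =>
        have h6 : X S C es u = 2 := X_two.2 hs
        rw [h6] at h5 ⊢
        simp only [if_true] at h5 ⊢
        by_cases h7 : C u = 0
        · rw [if_pos h7] at h5
          omega
        · rw [if_neg h7]
          exact ⟨Or.inl ⟨trivial, h7⟩, rfl⟩
      | false =>
        by_cases h7 : Dm S C es u
        · have h6 : X S C es u = 1 := by
            unfold X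
            simp [hs, h7]
          rw [h6]
          simp [h7]
        · have h6 : X S C es u = 0 := by
            unfold X
            simp [hs, h7]
          rw [h6] at h5
          simp at h5
    · unfold ini at h5
      rw [look_map_not M hk] at h5
      omega
  refine ⟨S, C, ⟨h2, fun u hu => (hz u hu).1⟩, ?_⟩
  rw [← h3]
  unfold wgt
  congr 1
  exact List.map_congr_left fun u hu => (hz u hu).2.symm

theorem ans_lt {n M : ℕ} (hn : 0 < n) (hM3 : 3 ≤ M) {es : List (ℕ × ℕ)} (hb : Bl n es)
    (hM : n * n < M) : ans n M es < M := by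
  have hg : Good es (fun _ => true) (fun u => u + 1) := by
    refine ⟨?_, fun u _ => Or.inl ⟨rfl, by simp⟩⟩
    have key : ∀ {fs : List (ℕ × ℕ)}, Bl n fs → ∀ e ∈ fs, e.1 ≠ e.2 := by
      intro fs
      induction fs with
      | nil => intro _ e he; simp at he
      | cons f fs ih =>
        intro hf e he
        rcases List.mem_cons.1 he with h | h
        · subst h
          intro h
          have := hf.2.2.1
          rw [h] at this
          exact this hf.2.2.2
        · exact ih hf.1 e h
    intro e he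
    have := key hb e he
    simp only
    omega
  refine (ans_le hn hM3 hb hg).trans_lt (lt_of_le_of_lt ?_ hM)
  unfold wgt
  have h3 : ∀ a ∈ (0 :: es.map Prod.fst).map fun u => if true = true then u + 1 else 0,
      a ≤ n := by
    intro a ha
    obtain ⟨u, hu, rfl⟩ := List.mem_map.1 ha
    have := Bl.lt hn hb u hu
    simp only [if_true]
    omega
  have h4 := List.sum_le_card_nsmul _ _ h3
  have h5 : (0 :: es.map Prod.fst).length ≤ (List.range n).length :=
    ((Bl.nodup hb).subperm fun u hu => List.mem_range.2 (Bl.lt hn hb u hu)).length_le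
  rw [List.length_map, smul_eq_mul] at h4
  rw [List.length_range] at h5
  exact h4.trans (Nat.mul_le_mul_right n h5)

end Pool.Agent.X65.UC
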